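import Pool.Agent.W77.IM.FinalS

set_option autoImplicit false

open Polynomial Module Pool.Agent.W77.IM

namespace Pool.Agent.Results.MP_0707f5_ag.ConstantSemisimplification

universe u v w

/-- Semisimplifications of flat bundles with nilpotent `p`-curvatures on constant curves.

Let `R₀ → R` be domains of finite type over `ℤ`, of characteristic zero, with fraction fields
`k₀ ⊆ K`, let `F` be a field containing `R` with an `R`-linear derivation `δ` and `δ x = 1`,
let `T ∈ R₀[x]` be nonzero, let `V` be a finite dimensional vector space over `F` with a connection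
`∇`, and let `E ⊆ V` be a finitely generated `R[x, 1/T]`-module which is stable under `∇` and
generates `V`. Let `F₀` be a `δ`-stable subfield of `F` containing `R₀` and `x`, with algebraically
closed field of constants, such that the field `F` is generated by `F₀` and by constants. Let `S` be
a Zariski dense set of closed points of `Spec R₀` (for example all of them or, if `k₀` is a number
field, the points over infinitely many primes). If the `p`-curvatures of `E` are nilpotent at
almost all closed points of `Spec R` over `S`, then `(V, ∇)` has a filtration by subconnections with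
graded pieces defined over `F₀`.

The case to have in mind: `C₀` is a curve over `k₀` with a separating function `x`, étale over the
part `T ≠ 0` of the line, `E` is a flat bundle on this part of `C₀ ⊗ K`, spread out over `Spec R`,
and `F = \bar K (C₀)`, `F₀ = \bar k₀ (C₀)`. -/
theorem result {R₀ R : Type u} [CommRing R₀] [IsDomain R₀] [CharZero R₀]
    [Algebra.FiniteType ℤ R₀] [CommRing R] [IsDomain R] [Algebra R₀ R] [Algebra.FiniteType R₀ R]
    (hR₀ : Function.Injective (algebraMap R₀ R))
    {F : Type v} [Field F] [Algebra R F] [Algebra R₀ F] [IsScalarTower R₀ R F]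
    (hR : Function.Injective (algebraMap R F)) (δ : Derivation R F F) (x : F) (hx : δ x = 1)
    (T : R₀[X]) (hT : T ≠ 0) {V : Type w} [AddCommGroup V] [Module F V] [FiniteDimensional F V]
    (nabla : V →+ V) (hnabla : ∀ (f : F) (v : V), nabla (f • v) = δ f • v + f • nabla v)
    (E : Submodule (CoordRing x T R) V) (hfg : E.FG) (hE : ∀ e ∈ E, nabla e ∈ E)
    (hspan : Submodule.span F (E : Set V) = ⊤) (S : Set (Ideal R₀)) (hS : DensePoints S)
    (hnil : NilpotentOver S nabla E) (F₀ : Subfield F) (hF₀ : ∀ a : R₀, algebraMap R₀ F a ∈ F₀)
    (hxF₀ : x ∈ F₀) (hδF₀ : ∀ f ∈ F₀, δ f ∈ F₀) (hclosed : IsAlgClosed (constField δ F₀))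
    (hgen : Subfield.closure ({c | δ c = 0} ∪ (F₀ : Set F)) = ⊤) :
    GradedOver nabla F₀ :=
  finalS hR₀ hR δ x hx T hT nabla hnabla E hfg hE hspan hS hnil F₀ hF₀ hxF₀ hδF₀ hclosed hgen

end Pool.Agent.Results.MP_0707f5_ag.ConstantSemisimplification
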