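import Pool.Agent.W77.IM.CurvS

set_option autoImplicit false

open Polynomial Module Pool.Agent.W77.IM

namespace Pool.Agent.Results.MP_0707f5_ag.DescentOfPCurvatures

universe u v w

/-- Descent of flat bundles with vanishing (or nilpotent) `p`-curvatures to the field of definition
of the curve.

Let `R₀ → R` be domains of finite type over `ℤ`, of characteristic zero, with fraction fields
`k₀ ⊆ K`, let `F` be a field containing `R` with an `R`-linear derivation `δ` and `δ x = 1`, let
`T ∈ R₀[x]` be nonzero, let `V` be a finite dimensional vector space over `F` with a connection `∇`,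
and let `E ⊆ V` be a finitely generated `R[x, 1/T]`-module which is stable under `∇` and generates
`V`. (The case to have in mind: `C₀` is a curve over `k₀` with a function `x`, étale over the part
`T ≠ 0` of the line, `E` is a flat bundle on this part of `C₀ ⊗ K`, spread out over `Spec R`, and
`F = K(C₀)`.)

Let `S` be a Zariski dense set of closed points of `Spec R₀` (for example all of them or, if `k₀`
is a number field, the points over infinitely many primes), and assume that the `p`-curvatures of
`E` are nilpotent at almost all closed points of `Spec R` over `S`. Then there are a nonzero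
`h ∈ R₀` and a finitely generated `R₀[x, 1/(hT)]`-module `E₀ ⊆ V`, stable under `∇` and generating
`V` over `F`, such that for every `n`, if the `n`-th powers of the `p`-curvatures of `E` vanish at
almost all closed points of `Spec R` over `S`, then the `n`-th powers of the `p`-curvatures of `E₀`
vanish at almost all points of `S`. So `(V, ∇)` is a quotient of the pullback of a connection on the
same part `T ≠ 0` of the line over `k₀`, which satisfies the same condition on its
`p`-curvatures. -/
theorem result {R₀ R : Type u} [CommRing R₀] [IsDomain R₀] [CharZero R₀]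
    [Algebra.FiniteType ℤ R₀] [CommRing R] [IsDomain R] [Algebra R₀ R] [Algebra.FiniteType R₀ R]
    (hR₀ : Function.Injective (algebraMap R₀ R))
    {F : Type v} [Field F] [Algebra R F] [Algebra R₀ F] [IsScalarTower R₀ R F]
    (hR : Function.Injective (algebraMap R F)) (δ : Derivation R F F) (x : F) (hx : δ x = 1)
    (T : R₀[X]) (hT : T ≠ 0) {V : Type w} [AddCommGroup V] [Module F V] [FiniteDimensional F V]
    (nabla : V →+ V) (hnabla : ∀ (f : F) (v : V), nabla (f • v) = δ f • v + f • nabla v)
    (E : Submodule (CoordRing x T R) V) (hfg : E.FG) (hE : ∀ e ∈ E, nabla e ∈ E)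
    (hspan : Submodule.span F (E : Set V) = ⊤) (S : Set (Ideal R₀)) (hS : DensePoints S)
    (hnil : NilpotentOver S nabla E) :
    ∃ (h : R₀) (_ : h ≠ 0) (E₀ : Submodule (CoordRing x (C h * T) R₀) V), E₀.FG ∧
      (∀ e ∈ E₀, nabla e ∈ E₀) ∧ Submodule.span F (E₀ : Set V) = ⊤ ∧
      ∀ n : ℕ, PCurvPowZeroOver S n nabla E → PCurvPowZeroOver S n nabla E₀ := by
  obtain ⟨h, hh, E₀, h1, h2, h3, h4⟩ :=
    descent_core hR₀ hR δ x hx T hT nabla hnabla E hfg hE hS hnil
  refine ⟨h, hh, E₀, h1, h2, ?_, h4⟩
  rw [← top_le_iff, ← hspan]
  exact Submodule.span_le.mpr h3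

end Pool.Agent.Results.MP_0707f5_ag.DescentOfPCurvatures
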