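import Pool.Agent.W77.GR.Main

set_option autoImplicit false

open Polynomial Module Pool.Agent.W77.IM Pool.Agent.W77.GR

namespace Pool.Agent.Results.MP_0707f5_ag.GoodReduction

universe u v w z

/-- Good reduction of flat bundles with nilpotent `p`-curvatures at the places of good reduction of
the curve.

Let `R` be a domain of finite type over `ℤ`, of characteristic zero, with fraction field `K`, let
`F` be a field containing `R` with an `R`-linear derivation `δ` and `δ x = 1`, let `T ∈ R[x]` be
nonzero, let `V` be a vector space over `F` with a connection `∇`, and let `E ⊆ V` be a finitely
generated `R[x, 1/T]`-module which is stable under `∇` and generates `V`. (`V` is then finite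
dimensional.) Let `P` be an infinite set of primes and assume that the `p`-curvatures of `E` are
nilpotent at almost all closed points of `Spec R` with residue characteristic in `P`. Let `v` be any
valuation of `F` of residue characteristic zero with `v x ≤ 1` for which the derivation `δ` is
contracting: `v (δ f) ≤ v f`. Then `V` has a `∇`-stable lattice over the valuation ring of `v`.

The case to have in mind: `C` is a smooth proper curve over `K` with a smooth (or, more generally,
a regular semistable) model over a discrete valuation ring of `K` with residue characteristic zero,
`v` is the valuation of `F = K(C)` given by a component of the special fibre, `x` is a function on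
`C` such that `dx` generates the relative differentials at the generic point of this component, and
`E` is a flat bundle on `C`, restricted to the part of `C` which is finite étale over `T ≠ 0`, and
spread out over `Spec R`. The lattice extends `E` across the generic point of the component; doing
this for all components one gets an extension of `E` to a vector bundle on the regular surface,
with a connection with values in the relative dualizing sheaf (the relative differentials, if the
model is smooth). -/
theorem result {R : Type u} [CommRing R] [IsDomain R] [CharZero R] [Algebra.FiniteType ℤ R]
    {F : Type v} [Field F] [Algebra R F] (hRF : Function.Injective (algebraMap R F))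
    (δ : Derivation R F F) (x : F) (hx : δ x = 1) (T : R[X]) (hT : T ≠ 0)
    {V : Type w} [AddCommGroup V] [Module F V] (nabla : V →+ V)
    (hnabla : ∀ (f : F) (v : V), nabla (f • v) = δ f • v + f • nabla v)
    (E : Submodule (CoordRing x T R) V) (hfg : E.FG) (hE : ∀ e ∈ E, nabla e ∈ E)
    (hspan : Submodule.span F (E : Set V) = ⊤) (P : Set ℕ) (hP : P.Infinite)
    (hPp : ∀ p ∈ P, p.Prime) (hnil : NilpotentAt P nabla E)
    {Γ : Type z} [LinearOrderedCommGroupWithZero Γ] (v : Valuation F Γ)
    (hvn : ∀ n : ℕ, n ≠ 0 → v (n : F) = 1) (hvx : v x ≤ 1) (hvδ : ∀ f, v (δ f) ≤ v f) :
    ∃ L : Submodule v.integer V, L.FG ∧ (∀ e ∈ L, nabla e ∈ L) ∧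
      Submodule.span F (L : Set V) = ⊤ :=
  good_reduction hRF δ x hx T hT nabla hnabla E hfg hE hspan hP hPp hnil v hvn hvx hvδ

end Pool.Agent.Results.MP_0707f5_ag.GoodReduction
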